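import Mathlib

namespace Pool.Agent.P.MP_2232d5_co

/-- The Zimin words. -/
def zimin : ℕ → List ℕ
  | 0 => []
  | k + 1 => zimin k ++ [k] ++ zimin k

/-- An infinite word is squarefree: no factor `uu` with `u` non-empty (of length `p`). -/
def IsSquarefree (y : ℕ → ℕ) : Prop :=
  ¬ ∃ i p : ℕ, 0 < p ∧ ∀ t < p, y (i + t) = y (i + p + t)

/-- Initial non-repetitive complexity, with value infinity when the defining set is unbounded. -/
noncomputable def nsc (y : ℕ → ℕ) (n : ℕ) : ℕ∞ :=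
  ⨆ (m : ℕ) (_ : ∀ i j : ℕ, i < j → j < m → ¬ ∀ t < n, y (i + t) = y (j + t)), (m : ℕ∞)

end Pool.Agent.P.MP_2232d5_co
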