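import Pool.Agent.P.MP_2232d5_co.Main

/-! Every squarefree word has `nsc n ≥ 2 n` infinitely often; a squarefree uniform morphism from
five letters to three. -/

namespace Pool.Agent.P.MP_2232d5_co

/-- The factors of length `n` at `i` and `j` agree. -/
def Rp (y : ℕ → ℕ) (n i j : ℕ) : Prop := ∀ t < n, y (i + t) = y (j + t)

theorem Rp.lt {y : ℕ → ℕ} (hs : IsSquarefree y) {n i j : ℕ} (h : Rp y n i j) (hij : i < j) :
    i + n < j := by
  by_contra hc
  refine hs ⟨i, j - i, by omega, fun t ht => ?_⟩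
  rw [h t (by omega)]; congr 1; omega

theorem often_two {y : ℕ → ℕ} (hs : IsSquarefree y) (N : ℕ) :
    ∃ n, N ≤ n ∧ ¬ ∃ i j, i < j ∧ j < 2 * n ∧ Rp y n i j := by
  classical
  by_contra hc
  have H : ∀ n, N ≤ n → ∃ i j, i < j ∧ j < 2 * n ∧ Rp y n i j ∧
      ∀ i' j', i' < j' → Rp y n i' j' → j ≤ j' := by
    intro n hn
    obtain ⟨i, j, h1, h2, h3⟩ : ∃ i j, i < j ∧ j < 2 * n ∧ Rp y n i j := by
      by_contra h; exact hc ⟨n, hn, h⟩
    have ex : ∃ j, ∃ i, i < j ∧ Rp y n i j := ⟨j, i, h1, h3⟩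
    obtain ⟨i₀, a1, a2⟩ := Nat.find_spec ex
    exact ⟨i₀, Nat.find ex, a1, lt_of_le_of_lt (Nat.find_min' ex ⟨i, h1, h3⟩) h2, a2,
      fun i' j' b1 b2 => Nat.find_min' ex ⟨i', b1, b2⟩⟩
  have key : ∀ i j n₀, N ≤ n₀ → i < j → j < 2 * n₀ → Rp y n₀ i j →
      (∀ i' j', i' < j' → Rp y n₀ i' j' → j ≤ j') → False := by
    intro i
    induction i using Nat.strong_induction_on with
    | _ i ih =>
      intro j n₀ hN hij hj hr hmin
      have ex : ∃ u, ¬ Rp y (n₀ + u + 1) i j := ⟨j, fun h => by have := h.lt hs hij; omega⟩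
      have a1 := Nat.find_spec ex
      have a2 : Rp y (n₀ + Nat.find ex) i j := by
        rcases Nat.eq_zero_or_pos (Nat.find ex) with e | e
        · rw [e]; exact hr
        · have := Nat.find_min ex (show Nat.find ex - 1 < Nat.find ex by omega)
          rw [not_not, show n₀ + (Nat.find ex - 1) + 1 = n₀ + Nat.find ex by omega] at this
          exact this
      obtain ⟨n, hn, a1, a2⟩ : ∃ n, n₀ ≤ n ∧ ¬ Rp y (n + 1) i j ∧ Rp y n i j :=
        ⟨_, Nat.le_add_right _ _, a1, a2⟩
      obtain ⟨i', j', b1, b2, b3, b4⟩ := H (n + 1) (by omega)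
      have c1 := a2.lt hs hij
      have c2 := b3.lt hs b1
      have c3 := hmin i' j' b1 fun t ht => b3 t (by omega)
      by_cases hi : i' < i
      · exact ih i' hi j' (n + 1) (by omega) b1 b2 b3 b4
      rcases lt_trichotomy (j - i) (j' - i') with e | e | e
      · refine hs ⟨i' + (j - i), j' - i' - (j - i), by omega, fun t ht => ?_⟩
        have d1 := a2 (i' - i + t) (by omega)
        have d2 := b3 t (by omega)
        rw [show i + (i' - i + t) = i' + t by omega] at d1
        rw [show i' + (j - i) + t = j + (i' - i + t) by omega, ← d1, d2]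
        congr 1; omega
      · refine a1 fun t ht => ?_
        rcases Nat.lt_succ_iff_lt_or_eq.1 ht with h | rfl
        · exact a2 t h
        · have d := b3 (i + t - i') (by omega)
          rwa [show i' + (i + t - i') = i + t by omega,
            show j' + (i + t - i') = j + t by omega] at d
      · refine hs ⟨i + (j' - j), j - i - (j' - i'), by omega, fun t ht => ?_⟩
        have d1 := a2 (j' - j + t) (by omega)
        have d2 := b3 t (by omega)
        rw [show j + (j' - j + t) = j' + t by omega] at d1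
        rw [add_assoc, d1, ← d2]
        congr 1; omega
  obtain ⟨i, j, h1, h2, h3, h4⟩ := H N le_rfl
  exact key i j N le_rfl h1 h2 h3 h4

/-- The image of the letter `a`, in base four. -/
def cd (a : ℕ) : ℕ :=
  if a = 0 then 40907449476 else if a = 1 then 40878089348 else if a = 2 then 39076635780
    else if a = 3 then 39062103172 else 39067346052

/-- Letter `r` of the image of the letter `a`. -/
def hh (a r : ℕ) : ℕ := cd a / 4 ^ r % 4

/-- The image of the word `a b c`, in base four. -/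
def w3 (a b c : ℕ) : ℕ := cd a + 4 ^ 18 * (cd b + 4 ^ 18 * cd c)

/-- Letter `n` of the image of the word `a b c`. -/
def g3 (a b c n : ℕ) : ℕ := w3 a b c / 4 ^ n % 4

/-- The image of an infinite word. -/
def Hm (y : ℕ → ℕ) (n : ℕ) : ℕ := hh (y (n / 18)) (n % 18)

/-- Bounded conjunction. -/
def allLt (n : ℕ) (f : ℕ → Bool) : Bool := (List.range n).all f

theorem allLt_iff {n : ℕ} {f : ℕ → Bool} : allLt n f = true ↔ ∀ i < n, f i = true := by
  simp [allLt]

theorem mod_eq_of_digits {X Y r s p : ℕ} (h : ∀ t < p, X / 4 ^ (r + t) % 4 = Y / 4 ^ (s + t) % 4) :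
    X / 4 ^ r % 4 ^ p = Y / 4 ^ s % 4 ^ p := by
  induction p with
  | zero => simp [Nat.mod_one]
  | succ p ih =>
    rw [Nat.mod_pow_succ, Nat.mod_pow_succ, ih fun t ht => h t (by omega), Nat.div_div_eq_div_mul,
      Nat.div_div_eq_div_mul, ← pow_add, ← pow_add, h p (by omega)]

theorem g3_eq : ∀ a < 5, ∀ b < 5, ∀ c < 5, ∀ n < 54,
    g3 a b c n = hh (if n < 18 then a else if n < 36 then b else c) (n % 18) := by
  have : (allLt 5 fun a => allLt 5 fun b => allLt 5 fun c => allLt 54 fun n =>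
      g3 a b c n == hh (if n < 18 then a else if n < 36 then b else c) (n % 18)) = true := by
    decide +kernel
  simpa only [allLt_iff, beq_iff_eq] using this

theorem hh_small : ∀ a < 5, ∀ b < 5, ∀ c < 5, a ≠ b → b ≠ c → ∀ r < 18, ∀ p < 18, 0 < p →
    ¬ ∀ t < p, g3 a b c (r + t) = g3 a b c (r + p + t) := by
  have : (allLt 5 fun a => allLt 5 fun b => allLt 5 fun c => a == b || b == c || allLt 18 fun r =>
      allLt 18 fun p => p == 0 || w3 a b c / 4 ^ r % 4 ^ p != w3 a b c / 4 ^ (r + p) % 4 ^ p) =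
      true := by decide +kernel
  simp only [allLt_iff, Bool.or_eq_true, beq_iff_eq, bne_iff_ne] at this
  intro a ha b hb c hc h1 h2 r hr p hp h0 h
  exact ((((this a ha b hb c hc).resolve_left (not_or.2 ⟨h1, h2⟩)) r hr p hp).resolve_left h0.ne')
    (mod_eq_of_digits h)

theorem hh_sync : ∀ a < 5, ∀ b < 5, a ≠ b → ∀ c < 5, ∀ d < 5, c ≠ d → ∀ r < 18, ∀ s < 18,
    (∀ t < 18, g3 a b 0 (r + t) = g3 c d 0 (s + t)) → r = s := by
  have : (allLt 5 fun a => allLt 5 fun b => a == b || allLt 5 fun c => allLt 5 fun d => c == d ||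
      allLt 18 fun r => allLt r fun s =>
        w3 a b 0 / 4 ^ r % 4 ^ 18 != w3 c d 0 / 4 ^ s % 4 ^ 18) = true := by decide +kernel
  simp only [allLt_iff, Bool.or_eq_true, beq_iff_eq, bne_iff_ne] at this
  intro a ha b hb h1 c hc d hd h2 r hr s hs h
  rcases lt_trichotomy r s with e | e | e
  · exact absurd (mod_eq_of_digits h).symm
      (((this c hc d hd).resolve_left h2 a ha b hb).resolve_left h1 s hs r e)
  · exact e
  · exact absurd (mod_eq_of_digits h)
      (((this a ha b hb).resolve_left h1 c hc d hd).resolve_left h2 r hr s e)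

set_option synthInstance.maxSize 4000 in
theorem hh_cut : ∀ a < 5, ∀ b < 5, ∀ c < 5, ∀ r < 18, (∀ t < 18, r ≤ t → hh a t = hh b t) →
    (∀ t < r, hh b t = hh c t) → a = b ∨ b = c := by decide +kernel

theorem hh_inj : ∀ a < 5, ∀ b < 5, (∀ t < 18, hh a t = hh b t) → a = b := by decide +kernel

theorem hh_lt : ∀ a < 5, ∀ r < 18, hh a r < 3 := by decide +kernel

theorem Hm_lt {y : ℕ → ℕ} (hy : ∀ n, y n < 5) (n : ℕ) : Hm y n < 3 :=
  hh_lt _ (hy _) _ (Nat.mod_lt _ (by norm_num))

theorem Hm_blk (y : ℕ → ℕ) (q : ℕ) {t : ℕ} (ht : t < 18) : Hm y (18 * q + t) = hh (y q) t := by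
  unfold Hm
  rw [show (18 * q + t) / 18 = q by omega, show (18 * q + t) % 18 = t by omega]

theorem Hm_g3 {y : ℕ → ℕ} (hy : ∀ n, y n < 5) (q : ℕ) {c t : ℕ} (ht : t < 54)
    (hc : (t < 36 ∧ c = 0) ∨ c = y (q + 2)) : Hm y (18 * q + t) = g3 (y q) (y (q + 1)) c t := by
  rw [g3_eq _ (hy _) _ (hy _) c (by have := hy (q + 2); omega) t ht]
  unfold Hm
  rw [show (18 * q + t) % 18 = t % 18 by omega]
  split_ifs with h1 h2
  · rw [show (18 * q + t) / 18 = q by omega]
  · rw [show (18 * q + t) / 18 = q + 1 by omega]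
  · rw [show (18 * q + t) / 18 = q + 2 by omega, hc.resolve_left fun h => h2 h.1]

/-- No square inside the prefix of length `N`. -/
def SF (y : ℕ → ℕ) (N : ℕ) : Prop :=
  ∀ i p, 0 < p → i + 2 * p ≤ N → ¬ ∀ t < p, y (i + t) = y (i + p + t)

theorem SF.Hm {y : ℕ → ℕ} (hy : ∀ n, y n < 5) {N : ℕ} (h : SF y (N + 2)) :
    SF (Hm y) (18 * N) := by
  intro i p hp hi hsq
  have ne : ∀ q ≤ N, y q ≠ y (q + 1) := fun q hq e =>
    h q 1 one_pos (by omega) fun t ht => by rwa [show t = 0 by omega]
  obtain ⟨q, r, hr, rfl⟩ : ∃ q r, r < 18 ∧ i = 18 * q + r :=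
    ⟨i / 18, i % 18, by omega, by omega⟩
  by_cases hp18 : p < 18
  · refine hh_small _ (hy q) _ (hy (q + 1)) _ (hy (q + 2)) (ne q (by omega))
      (ne (q + 1) (by omega)) r hr p hp18 hp fun t ht => ?_
    rw [← Hm_g3 hy q (by omega) (Or.inr rfl), ← Hm_g3 hy q (by omega) (Or.inr rfl),
      ← add_assoc, hsq t ht]
    congr 1; omega
  obtain ⟨q', r', hr', e⟩ : ∃ q' r', r' < 18 ∧ 18 * q + r + p = 18 * q' + r' :=
    ⟨(18 * q + r + p) / 18, (18 * q + r + p) % 18, by omega, by omega⟩
  obtain rfl : r = r' := by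
    refine hh_sync _ (hy q) _ (hy (q + 1)) (ne q (by omega)) _ (hy q') _ (hy (q' + 1))
      (ne q' (by omega)) r hr r' hr' fun t ht => ?_
    rw [← Hm_g3 hy q (by omega) (Or.inl ⟨by omega, rfl⟩),
      ← Hm_g3 hy q' (by omega) (Or.inl ⟨by omega, rfl⟩),
      ← add_assoc, hsq t (by omega), e, add_assoc]
  obtain ⟨j, rfl⟩ : ∃ j, p = 18 * j := ⟨q' - q, by omega⟩
  have blk : ∀ s t, t < 18 → r ≤ 18 * s + t → 18 * s + t < r + 18 * j →
      hh (y (q + s)) t = hh (y (q + s + j)) t := fun s t ht h1 h2 => by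
    rw [← Hm_blk y _ ht, ← Hm_blk y _ ht]
    have := hsq (18 * s + t - r) (by omega)
    rwa [show 18 * q + r + (18 * s + t - r) = 18 * (q + s) + t by omega,
      show 18 * q + r + 18 * j + (18 * s + t - r) = 18 * (q + s + j) + t by omega] at this
  have full : ∀ s, 0 < s → s < j → y (q + s) = y (q + s + j) := fun s h1 h2 =>
    hh_inj _ (hy _) _ (hy _) fun t ht => blk s t ht (by omega) (by omega)
  rcases hh_cut _ (hy q) _ (hy (q + j)) _ (hy (q + j + j)) r hr
    (fun t ht h1 => blk 0 t ht (by omega) (by omega))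
    (fun t ht => blk j t (by omega) (by omega) (by omega)) with e1 | e1
  · refine h q j (by omega) (by omega) fun t ht => ?_
    rcases Nat.eq_zero_or_pos t with rfl | h0
    · exact e1
    · rw [full t h0 ht]; congr 1; omega
  · refine h (q + 1) j (by omega) (by omega) fun t ht => ?_
    by_cases h0 : t + 1 = j
    · rw [show q + 1 + t = q + j by omega, e1]; congr 1; omega
    · rw [show q + 1 + t = q + (t + 1) by omega, full (t + 1) (by omega) (by omega)]
      congr 1; omega

theorem IsSquarefree.Hm {y : ℕ → ℕ} (hy : ∀ n, y n < 5) (h : IsSquarefree y) :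
    IsSquarefree (Hm y) := fun ⟨i, p, hp, hsq⟩ =>
  SF.Hm hy (N := i + 2 * p) (fun i p hp _ hsq => h ⟨i, p, hp, hsq⟩) i p hp (by omega) hsq

/-- The fixed point of the morphism. -/
def tern (n : ℕ) : ℕ := if h : n = 0 then 0 else hh (tern (n / 18)) (n % 18)
  decreasing_by omega

theorem exists_tern : ∃ T : ℕ → ℕ, (∀ n, T n < 3) ∧ IsSquarefree T := by
  have e : ∀ n, tern n = Hm tern n := fun n => by
    rw [tern]
    split_ifs with h
    · subst h; unfold Hm; rw [Nat.zero_div, tern]; simp [hh, cd]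
    · rfl
  have lt : ∀ n, tern n < 3 := fun n => by
    induction n using Nat.strong_induction_on with
    | _ n ih =>
      rw [tern]
      split_ifs with h
      · norm_num
      · exact hh_lt _ ((ih _ (by omega)).trans (by norm_num)) _ (Nat.mod_lt _ (by norm_num))
  have t0 : tern 0 = 0 := by rw [tern]; simp
  have t1 : tern 1 = 1 := by rw [tern]; simp [t0, hh, cd]
  have t2 : tern 2 = 0 := by rw [tern]; simp [t0, hh, cd]
  have sf : ∀ n, SF tern (n + 3) := fun n => by
    induction n with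
    | zero =>
      intro i p hp hi hsq
      have := hsq 0 hp
      obtain rfl : p = 1 := by omega
      obtain rfl | rfl : i = 0 ∨ i = 1 := by omega
      all_goals simp [t0, t1, t2] at this
    | succ n ih =>
      have := SF.Hm (fun n => (lt n).trans (by norm_num)) (N := n + 1) ih
      rw [← funext e] at this
      exact fun i p hp hi => this i p hp (by omega)
  exact ⟨tern, lt, fun ⟨i, p, hp, hsq⟩ => sf (i + 2 * p) i p hp (by omega) hsq⟩

end Pool.Agent.P.MP_2232d5_co
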