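import Pool.Agent.P.MP_2232d5_co.LimA

/-! A ternary squarefree word with `nsc n ≤ 2 n + O (log log n)`. -/

namespace Pool.Agent.P.MP_2232d5_co

/-- The ruler sequence. -/
def xr (r : ℕ) : ℕ := nu (r + 1)

theorem xr_sf : IsSquarefree xr :=
  ((main xr zimin_eq xr).2 ⟨id, Function.injective_id, rfl⟩).1

/-- The length of the code word of `k`. -/
def ln (k : ℕ) : ℕ := 36 * Nat.size k

/-- The position of the marker number `i`. -/
def sp : ℕ → ℕ
  | 0 => 0
  | i + 1 => sp i + 1 + ln (xr (i / 2))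

theorem sp_succ (i : ℕ) : sp (i + 1) = sp i + 1 + ln (xr (i / 2)) := rfl

theorem sp_mono : StrictMono sp := strictMono_nat_of_lt_succ fun i => by rw [sp_succ]; omega

theorem sp_ex (n : ℕ) : ∃ i o, o ≤ ln (xr (i / 2)) ∧ n = sp i + o := by
  induction n with
  | zero => exact ⟨0, 0, Nat.zero_le _, rfl⟩
  | succ n ih =>
    obtain ⟨i, o, h1, rfl⟩ := ih
    rcases h1.lt_or_eq with h | h
    · exact ⟨i, o + 1, h, by omega⟩
    · exact ⟨i + 1, 0, Nat.zero_le _, by rw [sp_succ]; omega⟩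

theorem sp_uniq {i j o q : ℕ} (h1 : o ≤ ln (xr (i / 2))) (h2 : q ≤ ln (xr (j / 2)))
    (e : sp i + o = sp j + q) : i = j := by
  rcases lt_trichotomy i j with h | h | h
  · have := sp_mono.monotone (show i + 1 ≤ j from h)
    rw [sp_succ] at this; omega
  · exact h
  · have := sp_mono.monotone (show j + 1 ≤ i from h)
    rw [sp_succ] at this; omega

/-- Alternating markers `3`, `4`, each followed by a code word. -/
def Blk (T : ℕ → ℕ → ℕ) (Y : ℕ → ℕ) : Prop :=
  ∀ i o, o ≤ ln (xr (i / 2)) → Y (sp i + o) = if o = 0 then 3 + i % 2 else T (xr (i / 2)) (o - 1)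

theorem exists_Blk (T : ℕ → ℕ → ℕ) : ∃ Y, Blk T Y := by
  choose I O h1 h2 using sp_ex
  refine ⟨fun n => if O n = 0 then 3 + I n % 2 else T (xr (I n / 2)) (O n - 1), fun i o ho => ?_⟩
  have e := h2 (sp i + o)
  have e1 : i = I (sp i + o) := sp_uniq ho (h1 _) e
  have e2 : O (sp i + o) = o := by rw [← e1] at e; omega
  simp only [e2, ← e1]

section

variable {T : ℕ → ℕ → ℕ} {Y : ℕ → ℕ}

theorem Blk.lt (h : Blk T Y) (hT : ∀ k n, T k n < 3) (n : ℕ) : Y n < 5 := by
  obtain ⟨i, o, h1, rfl⟩ := sp_ex n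
  rw [h i o h1]
  have := hT (xr (i / 2)) (o - 1)
  split_ifs <;> omega

theorem Blk.at (h : Blk T Y) (i : ℕ) : Y (sp i) = 3 + i % 2 := by
  simpa using h i 0 (Nat.zero_le _)

theorem Blk.mk (h : Blk T Y) (hT : ∀ k n, T k n < 3) {n : ℕ} (hn : 3 ≤ Y n) : ∃ i, n = sp i := by
  obtain ⟨i, o, h1, rfl⟩ := sp_ex n
  rw [h i o h1] at hn
  have := hT (xr (i / 2)) (o - 1)
  split_ifs at hn with h0
  · exact ⟨i, by omega⟩
  · omega

theorem Blk.sf (h : Blk T Y) (hT : ∀ k n, T k n < 3) (hs : ∀ k, IsSquarefree (T k))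
    (hj : ∀ a b, ln a = ln b → (∀ t < ln a, T a t = T b t) → a = b) : IsSquarefree Y := by
  classical
  rintro ⟨a, p, hp, hsq⟩
  have up : ∀ i, a ≤ sp i → sp i < a + p → ∃ w, sp i + p = sp w := fun i h1 h2 => by
    refine h.mk hT ?_
    have := hsq (sp i - a) (by omega)
    rw [show a + (sp i - a) = sp i by omega, show a + p + (sp i - a) = sp i + p by omega] at this
    rw [← this, h.at]; omega
  have dn : ∀ i, a + p ≤ sp i → sp i < a + p + p → ∃ w, sp w + p = sp i := fun i h1 h2 => by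
    have := hsq (sp i - a - p) (by omega)
    rw [show a + p + (sp i - a - p) = sp i by omega, h.at] at this
    obtain ⟨w, hw⟩ := h.mk hT (n := a + (sp i - a - p)) (by omega)
    exact ⟨w, by omega⟩
  have ex : ∃ i, a ≤ sp i := ⟨a, sp_mono.le_apply⟩
  obtain ⟨i, hi, hmin⟩ : ∃ i, a ≤ sp i ∧ ∀ w, a ≤ sp w → i ≤ w :=
    ⟨_, Nat.find_spec ex, fun w hw => Nat.find_min' ex hw⟩
  by_cases hc : sp i < a + p
  · obtain ⟨w, hw⟩ := up i hi hc
    obtain ⟨j, rfl⟩ : ∃ j, w = i + j + 1 := by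
      have : i < w := sp_mono.lt_iff_lt.1 (by omega)
      exact ⟨w - i - 1, by omega⟩
    have last : sp (i + j) < a + p := by
      by_contra hl
      have l1 : sp (i + j) < sp (i + j + 1) := sp_mono (by omega)
      obtain ⟨w, e⟩ := dn (i + j) (by omega) (by omega)
      have := sp_mono.monotone (hmin w (by omega))
      omega
    have al : ∀ u, u ≤ j → sp (i + u) + p = sp (i + j + 1 + u) := by
      intro u
      induction u with
      | zero => exact fun _ => hw
      | succ u ih =>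
        intro hu
        have e0 := ih (by omega)
        have l0 : sp (i + (u + 1)) ≤ sp (i + j) := sp_mono.monotone (by omega)
        have l1 : sp (i + u) < sp (i + (u + 1)) := sp_mono (by omega)
        have l2 : sp i ≤ sp (i + u) := sp_mono.monotone (by omega)
        have l3 : sp (i + j + 1 + u) < sp (i + j + 1 + (u + 1)) := sp_mono (by omega)
        obtain ⟨w, e⟩ := up (i + (u + 1)) (by omega) (by omega)
        have m1 : i + j + 1 + u < w := sp_mono.lt_iff_lt.1 (by omega)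
        have m2 : sp (i + j + 1 + (u + 1)) ≤ sp w := sp_mono.monotone (by omega)
        obtain ⟨w', e'⟩ := dn (i + j + 1 + (u + 1)) (by omega) (by omega)
        have m3 : i + u < w' := sp_mono.lt_iff_lt.1 (by omega)
        have m4 : sp (i + (u + 1)) ≤ sp w' := sp_mono.monotone (by omega)
        omega
    have par := hsq (sp i - a) (by omega)
    rw [show a + (sp i - a) = sp i by omega, show a + p + (sp i - a) = sp (i + j + 1) by omega,
      h.at, h.at] at par
    obtain ⟨b, rfl⟩ : ∃ b, j = 2 * b + 1 := ⟨j / 2, by omega⟩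
    refine xr_sf ⟨i / 2, b + 1, by omega, fun v hv => ?_⟩
    have e1 := al (2 * v) (by omega)
    have e2 := al (2 * v + 1) (by omega)
    rw [← add_assoc, ← add_assoc, sp_succ, sp_succ, show (i + 2 * v) / 2 = i / 2 + v by omega,
      show (i + (2 * b + 1) + 1 + 2 * v) / 2 = i / 2 + (b + 1) + v by omega] at e2
    refine hj _ _ (by omega) fun t ht => ?_
    have l0 : sp (i + 2 * v + 1) ≤ sp (i + (2 * b + 1)) := sp_mono.monotone (by omega)
    have l1 : sp i ≤ sp (i + 2 * v) := sp_mono.monotone (by omega)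
    have d1 : (i + 2 * v) / 2 = i / 2 + v := by omega
    have d2 : (i + (2 * b + 1) + 1 + 2 * v) / 2 = i / 2 + (b + 1) + v := by omega
    rw [sp_succ, d1] at l0
    have := hsq (sp (i + 2 * v) + (t + 1) - a) (by omega)
    rwa [show a + (sp (i + 2 * v) + (t + 1) - a) = sp (i + 2 * v) + (t + 1) by omega,
      show a + p + (sp (i + 2 * v) + (t + 1) - a) = sp (i + (2 * b + 1) + 1 + 2 * v) + (t + 1) by
        omega, h _ _ (by rw [d1]; omega), h _ _ (by rw [d2]; omega), if_neg (by omega),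
      if_neg (by omega), d1, d2, Nat.add_sub_cancel] at this
  · obtain ⟨k, o, ho, e⟩ := sp_ex a
    have l1 := sp_succ k
    have l2 := sp_mono.monotone (hmin (k + 1) (by omega))
    have o0 : 0 < o := by
      by_contra h0
      have := sp_mono.monotone (hmin k (by omega))
      omega
    have l3 : a + p + p ≤ sp (k + 1) := by
      by_contra hl
      obtain ⟨w, e⟩ := dn (k + 1) (by omega) (by omega)
      have := sp_mono.monotone (hmin w (by omega))
      omega
    refine hs (xr (k / 2)) ⟨o - 1, p, hp, fun t ht => ?_⟩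
    have := hsq t ht
    rw [e, add_assoc, add_assoc, add_assoc, h k _ (by omega), h k _ (by omega),
      if_neg (by omega), if_neg (by omega)] at this
    rwa [show o - 1 + t = o + t - 1 by omega, show o - 1 + p + t = o + (p + t) - 1 by omega]

theorem xr_add {k i : ℕ} (hi : i + 2 < 2 * 2 ^ k) : xr ((i + 2 * 2 ^ k) / 2) = xr (i / 2) := by
  unfold xr
  rw [show (i + 2 * 2 ^ k) / 2 + 1 = 2 ^ k + (i / 2 + 1) by omega,
    nu_add' dvd_rfl (by omega) (by omega)]

theorem sp_add {k i : ℕ} (hi : i + 2 ≤ 2 * 2 ^ k) :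
    sp (i + 2 * 2 ^ k) = sp i + sp (2 * 2 ^ k) := by
  induction i with
  | zero => simp [sp]
  | succ i ih =>
    rw [show i + 1 + 2 * 2 ^ k = i + 2 * 2 ^ k + 1 by ring, sp_succ, sp_succ, ih (by omega),
      xr_add (by omega)]
    omega

theorem Blk.rp (h : Blk T Y) (k : ℕ) : Rp Y (sp (2 * 2 ^ k - 2)) 0 (sp (2 * 2 ^ k)) := by
  intro t ht
  obtain ⟨i, o, h1, rfl⟩ := sp_ex t
  have hi : i < 2 * 2 ^ k - 2 := sp_mono.lt_iff_lt.1 (by omega)
  rw [zero_add, h i o h1, ← add_assoc, add_comm (sp (2 * 2 ^ k)), ← sp_add (by omega),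
    h _ o (by rwa [xr_add (by omega)]), show (i + 2 * 2 ^ k) % 2 = i % 2 by omega,
    xr_add (by omega)]

theorem sp_pow (k : ℕ) : sp (2 * 2 ^ k) = sp (2 * 2 ^ k - 2) + 2 * ln k + 2 := by
  obtain ⟨m, hm⟩ : ∃ m, 2 ^ k = m + 1 := ⟨2 ^ k - 1, by have : 0 < 2 ^ k := by positivity
                                                        omega⟩
  have e : xr m = k := by unfold xr; rw [← hm, nu_pow]
  rw [hm, show 2 * (m + 1) = 2 * m + 1 + 1 by ring, sp_succ, sp_succ,
    show (2 * m + 1) / 2 = m by omega, show 2 * m / 2 = m by omega,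
    show 2 * m + 1 + 1 - 2 = 2 * m by omega, e]
  omega

theorem Rp.Hm {y : ℕ → ℕ} {n j : ℕ} (h : Rp y n 0 j) : Rp (Hm y) (18 * n) 0 (18 * j) := by
  intro t ht
  unfold Pool.Agent.P.MP_2232d5_co.Hm
  have := h (t / 18) (by omega)
  rw [zero_add] at this
  rw [zero_add, this, show (18 * j + t) / 18 = j + t / 18 by omega,
    show (18 * j + t) % 18 = t % 18 by omega]

end

theorem exists_code : ∃ W : ℕ → ℕ → ℕ, (∀ k n, W k n < 3) ∧ (∀ k, IsSquarefree (W k)) ∧
    ∀ a b, ln a = ln b → (∀ t < ln a, W a t = W b t) → a = b := by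
  obtain ⟨T, hT, hs⟩ := exists_tern
  obtain ⟨V, hV⟩ : ∃ V : ℕ → ℕ → ℕ, ∀ k t,
      V k t = if T t ≠ 2 ∧ k.testBit (t / 2) = true then T t + 3 else T t := ⟨_, fun _ _ => rfl⟩
  have lt : ∀ k t, V k t < 5 := fun k t => by
    have := hT t
    rw [hV]; split_ifs <;> omega
  have md : ∀ k t, V k t % 3 = T t := fun k t => by
    have := hT t
    rw [hV]; split_ifs <;> omega
  refine ⟨fun k => Hm (V k), fun k => Hm_lt (lt k), fun k => IsSquarefree.Hm (lt k) ?_,
    fun a b e h => Nat.eq_of_testBit_eq fun m => ?_⟩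
  · rintro ⟨i, p, hp, h⟩
    exact hs ⟨i, p, hp, fun t ht => by rw [← md k, h t ht, md]⟩
  unfold ln at e h
  by_cases hm : m < a.size
  · have eq : ∀ t, t / 2 = m → T t ≠ 2 → a.testBit m = b.testBit m := fun t ht h2 => by
      have : V a t = V b t := hh_inj _ (lt _ _) _ (lt _ _) fun r hr => by
        rw [← Hm_blk _ _ hr, ← Hm_blk _ _ hr]
        exact h _ (by omega)
      rw [hV, hV, ht] at this
      cases ha : a.testBit m <;> cases hb : b.testBit m <;> simp [ha, hb, h2] at this ⊢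
    by_cases h2 : T (2 * m) = 2
    · refine eq (2 * m + 1) (by omega) fun h3 => hs ⟨2 * m, 1, one_pos, fun t ht => ?_⟩
      obtain rfl : t = 0 := by omega
      rw [add_zero, add_zero, h2, h3]
    · exact eq (2 * m) (by omega) h2
  · rw [Nat.testBit_lt_two_pow (Nat.size_le.1 (by omega)),
      Nat.testBit_lt_two_pow (Nat.size_le.1 (by omega))]

theorem exists_near : ∃ Z : ℕ → ℕ, (∀ n, Z n < 3) ∧ IsSquarefree Z ∧ ∀ n, 1 ≤ n →
    ∃ k j, 2 ^ k ≤ n ∧ 0 < j ∧ j ≤ 2 * n + 72 + 36 * (ln k + ln (k + 1)) ∧ Rp Z n 0 j := by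
  classical
  obtain ⟨T, hT, hs, hj⟩ := exists_code
  obtain ⟨Y, hY⟩ := exists_Blk T
  refine ⟨Hm Y, Hm_lt (hY.lt hT), (hY.sf hT hs hj).Hm (hY.lt hT), fun n hn => ?_⟩
  have ge : ∀ i, i ≤ sp i := fun i => sp_mono.le_apply
  have ex : ∃ k, n ≤ 18 * sp (2 * 2 ^ (k + 1) - 2) := ⟨n, by
    have h1 := ge (2 * 2 ^ (n + 1) - 2)
    have h2 : n + 1 < 2 ^ (n + 1) := Nat.lt_two_pow_self
    omega⟩
  obtain ⟨k, h1, h2⟩ : ∃ k, n ≤ 18 * sp (2 * 2 ^ (k + 1) - 2) ∧ 18 * sp (2 * 2 ^ k - 2) < n := by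
    refine ⟨_, Nat.find_spec ex, ?_⟩
    rcases Nat.eq_zero_or_pos (Nat.find ex) with e | e
    · rw [e]; simp [sp]; omega
    · have := Nat.find_min ex (show Nat.find ex - 1 < Nat.find ex by omega)
      rw [show Nat.find ex - 1 + 1 = Nat.find ex by omega] at this
      omega
  have p0 : 0 < 2 ^ k := by positivity
  have p1 : 2 ^ (k + 1) = 2 * 2 ^ k := by ring
  have e1 := sp_pow (k + 1)
  have e2 := sp_pow k
  have e3 := sp_add (k := k) (i := 2 * 2 ^ k - 2) (by omega)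
  rw [show 2 * 2 ^ k - 2 + 2 * 2 ^ k = 2 * 2 ^ (k + 1) - 2 by omega] at e3
  have e4 := ge (2 * 2 ^ k - 2)
  exact ⟨k, 18 * sp (2 * 2 ^ (k + 1)), by omega, by omega, by omega,
    fun t ht => (hY.rp (k + 1)).Hm t (by omega)⟩

theorem exists_upper (S : Set ℕ) (hS : 3 ≤ S.encard) : ∃ y : ℕ → ℕ, (∀ i, y i ∈ S) ∧
    IsSquarefree y ∧ ∀ n, 4 ≤ n → nsc y n ≤ ((2 * n + 8000 * Nat.log 2 (Nat.log 2 n) : ℕ) : ℕ∞) := by
  obtain ⟨U, hU, e⟩ := Set.exists_subset_encard_eq hS
  obtain ⟨a, b, c, h1, h2, h3, rfl⟩ := Set.encard_eq_three.1 e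
  obtain ⟨Z, z1, z2, z3⟩ := exists_near
  refine ⟨fun n => if Z n = 0 then a else if Z n = 1 then b else c, fun i => hU ?_, ?_,
    fun n hn => ?_⟩
  · beta_reduce
    split_ifs <;> simp
  · rintro ⟨i, p, hp, hsq⟩
    refine z2 ⟨i, p, hp, fun t ht => ?_⟩
    have h0 := hsq t ht
    have := z1 (i + t)
    have := z1 (i + p + t)
    beta_reduce at h0
    split_ifs at h0 <;> omega
  · obtain ⟨k, j, a1, a2, a3, a4⟩ := z3 n (by omega)
    refine (nsc_le_iff _ _ _).2 ⟨0, j, a2, ?_, fun t ht => by simp only [a4 t ht]⟩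
    have l1 : k ≤ Nat.log 2 n := Nat.le_log_of_pow_le (by norm_num) a1
    have l2 : 2 ≤ Nat.log 2 n := Nat.le_log_of_pow_le (by norm_num) hn
    generalize Nat.log 2 n = l at *
    have l3 : 1 ≤ Nat.log 2 l := Nat.le_log_of_pow_le (by norm_num) l2
    have l4 : l < 2 ^ (Nat.log 2 l + 1) := Nat.lt_pow_succ_log_self (by norm_num) l
    have l5 : 2 ^ (Nat.log 2 l + 2) = 2 * 2 ^ (Nat.log 2 l + 1) := by ring
    have l6 : k.size ≤ Nat.log 2 l + 2 := Nat.size_le.2 (by omega)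
    have l7 : (k + 1).size ≤ Nat.log 2 l + 2 := Nat.size_le.2 (by omega)
    unfold ln at a3
    omega

end Pool.Agent.P.MP_2232d5_co
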