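import Pool.Agent.P.MP_2232d5_co.LimA

/-! A squarefree word over a finite alphabet has `nsc n > 2 n + c log log n` infinitely often. -/

namespace Pool.Agent.P.MP_2232d5_co

variable {y : ℕ → ℕ}

theorem Rp.two (hs : IsSquarefree y) {n i j n' i' j' : ℕ} (h : Rp y n i j) (h' : Rp y n' i' j') :
    j' + i ≤ j + i' ∨ min (i + n) (i' + n') + (j + i') < max i i' + (j' + i) := by
  by_contra hc
  refine hs ⟨j + (max i i' - i), j' + i - (j + i'), by omega, fun t ht => ?_⟩
  have d1 := h (max i i' - i + t) (by omega)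
  have d2 := h' (max i i' - i' + t) (by omega)
  rw [show i + (max i i' - i + t) = i' + (max i i' - i' + t) by omega, d2] at d1
  rw [add_assoc, ← d1]
  congr 1; omega

theorem Rp.symm {n i j : ℕ} (h : Rp y n i j) : Rp y n j i := fun t ht => (h t ht).symm

theorem Rp.mis {n i j n' i' j' : ℕ} (h : Rp y n i j) (h1 : ¬ Rp y (n + 1) i j)
    (h' : Rp y n' i' j') : j' + i ≠ j + i' ∨ i + n < i' ∨ i' + n' ≤ i + n := by
  by_contra hc
  refine h1 fun t ht => ?_
  rcases Nat.lt_succ_iff_lt_or_eq.1 ht with e | rfl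
  · exact h t e
  · have d := h' (i + t - i') (by omega)
    rwa [show i' + (i + t - i') = i + t by omega, show j' + (i + t - i') = j + t by omega] at d

theorem Rp.ext (hs : IsSquarefree y) {n₀ i j : ℕ} (h : Rp y n₀ i j) (hij : i < j) :
    ∃ n, n₀ ≤ n ∧ Rp y n i j ∧ ¬ Rp y (n + 1) i j := by
  classical
  have ex : ∃ u, ¬ Rp y (n₀ + u + 1) i j := ⟨j, fun h => by have := h.lt hs hij; omega⟩
  refine ⟨_, Nat.le_add_right _ _, ?_, Nat.find_spec ex⟩
  rcases Nat.eq_zero_or_pos (Nat.find ex) with e | e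
  · rw [e]; exact h
  · have := Nat.find_min ex (show Nat.find ex - 1 < Nat.find ex by omega)
    rwa [not_not, show n₀ + (Nat.find ex - 1) + 1 = n₀ + Nat.find ex by omega] at this

theorem good_scale (hs : IsSquarefree y) {C N B : ℕ}
    (h : ∀ n, N ≤ n → n ≤ 3 * B → ∃ i j, i < j ∧ j ≤ 2 * n + C ∧ Rp y n i j)
    (hN : 20 * C + 20 ≤ N) (hB : 3 ^ (C + 3) * N ≤ B) :
    ∃ n i j, N ≤ n ∧ n ≤ B ∧ i < j ∧ j ≤ n + (10 * C + 10) ∧ Rp y n i j := by
  classical
  have H : ∀ n, N ≤ n → n ≤ 3 * B → ∃ i j m, i < j ∧ j ≤ 2 * n + C ∧ n ≤ m ∧ Rp y m i j ∧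
      ¬ Rp y (m + 1) i j ∧ ∀ i' j' m', i' < j' → n ≤ m' → Rp y m' i' j' → j ≤ j' := by
    intro n hn hn'
    obtain ⟨i, j, h1, h2, h3⟩ := h n hn hn'
    have ex : ∃ j, ∃ i, i < j ∧ Rp y n i j := ⟨j, i, h1, h3⟩
    obtain ⟨i₀, a1, a2⟩ := Nat.find_spec ex
    obtain ⟨m, m1, m2, m3⟩ := a2.ext hs a1
    exact ⟨i₀, Nat.find ex, m, a1, (Nat.find_min' ex ⟨i, h1, h3⟩).trans h2, m1, m2, m3,
      fun i' j' m' b1 b2 b3 => Nat.find_min' ex ⟨i', b1, fun t ht => b3 t (by omega)⟩⟩
  by_contra hc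
  have key : ∀ i j n, N ≤ n → i < j → Rp y n i j → ¬ Rp y (n + 1) i j →
      (∀ i' j' m', i' < j' → n ≤ m' → Rp y m' i' j' → j ≤ j') →
      3 ^ min i (C + 2) * (n + i) ≤ B → False := by
    intro i
    induction i using Nat.strong_induction_on with
    | _ i ih =>
      intro j n hn hij a1 a2 hmin hb
      have nB : n + i ≤ B := (Nat.le_mul_of_pos_left _ (by positivity)).trans hb
      obtain ⟨i', j', n', b1, b2, hn', e1, e2, b4⟩ := H (n + 1) (by omega) (by omega)
      have c3 := hmin i' j' n' b1 (by omega) e1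
      have c4 := a1.lt hs hij
      have c5 := e1.lt hs b1
      by_cases hi : i' < i
      · refine ih i' hi j' n' (by omega) b1 e1 e2
          (fun a b c d1 d2 d3 => b4 a b c d1 (by omega) d3) (le_trans ?_ hb)
        by_cases hi' : i' ≤ C + 1
        · calc 3 ^ min i' (C + 2) * (n' + i') ≤ 3 ^ min i' (C + 2) * (3 * (n + i)) :=
                Nat.mul_le_mul_left _ (by omega)
            _ = 3 ^ (min i' (C + 2) + 1) * (n + i) := by ring
            _ ≤ _ := Nat.mul_le_mul_right _ (Nat.pow_le_pow_right (by norm_num) (by omega))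
        · have := a1.two hs e1
          exact Nat.mul_le_mul (Nat.pow_le_pow_right (by norm_num) (by omega)) (by omega)
      clear hb
      have big : n + (10 * C + 10) < j := by
        by_contra hb
        exact hc ⟨n, i, j, hn, by omega, hij, by omega, a1⟩
      have b3 : Rp y (n + 1) i' j' := fun t ht => e1 t (by omega)
      have jump : i + n < i' := by
        have := a1.two hs b3
        have := a1.symm.two hs b3.symm
        have := a1.mis a2 b3
        omega
      obtain ⟨i'', j'', m, f1, f2, f4, f5, -, -⟩ := H (n' + 1) (by omega) (by omega)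
      have f3 : Rp y (n' + 1) i'' j'' := fun t ht => f5 t (by omega)
      have c7 := b4 i'' j'' m f1 (by omega) f5
      have c6 := f3.lt hs f1
      have low : i'' ≤ 6 * C := by
        have := e1.symm.two hs f3.symm
        have := f3.symm.two hs e1.symm
        have := e1.mis e2 f3
        omega
      have := a1.two hs f3
      have := f3.two hs a1
      have := a1.mis a2 f3
      omega
  have NB : N ≤ B := (Nat.le_mul_of_pos_left _ (by positivity)).trans hB
  obtain ⟨i, j, n, h1, h2, h3, h4, h5, h6⟩ := H N le_rfl (by omega)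
  refine key i j n h3 h1 h4 h5 (fun a b c d1 d2 d3 => h6 a b c d1 (by omega) d3) (le_trans ?_ hB)
  have := h4.lt hs h1
  calc 3 ^ min i (C + 2) * (n + i) ≤ 3 ^ (C + 2) * (3 * N) :=
        Nat.mul_le_mul (Nat.pow_le_pow_right (by norm_num) (by omega)) (by omega)
    _ = _ := by ring

theorem window (hs : IsSquarefree y) {S : Finset ℕ} (hS : ∀ n, y n ∈ S) {C N : ℕ}
    (hN : 20 * C + 20 ≤ N) : ∃ n, N ≤ n ∧ n ≤ (3 ^ (C + 4)) ^ (S.card ^ (20 * C + 20) + 1) * N ∧
      ¬ ∃ i j, i < j ∧ j ≤ 2 * n + C ∧ Rp y n i j := by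
  classical
  by_contra hc
  obtain ⟨D, hD⟩ : ∃ D, D = 10 * C + 10 := ⟨_, rfl⟩
  obtain ⟨Q, hQ⟩ : ∃ Q, Q = 3 ^ (C + 4) := ⟨_, rfl⟩
  rw [← hQ, show 20 * C + 20 = 2 * D by omega] at hc
  have Q0 : 0 < Q := by rw [hQ]; positivity
  have mono : ∀ a b, a ≤ b → Q ^ a * N ≤ Q ^ b * N := fun a b h =>
    Nat.mul_le_mul_right _ (Nat.pow_le_pow_right Q0 h)
  have ex : ∀ r, ∃ p, r ≤ S.card ^ (2 * D) → Q ^ r * N < p ∧ 2 * p ≤ Q ^ (r + 1) * N ∧
      ∀ t, D ≤ t → t + D < p → y t = y (t + p) := by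
    intro r
    by_cases hr : r ≤ S.card ^ (2 * D)
    swap
    · exact ⟨0, fun h => absurd h hr⟩
    have l0 : N ≤ Q ^ r * N := by simpa using mono 0 r (Nat.zero_le _)
    have l1 : 3 * (3 ^ (C + 3) * (Q ^ r * N)) = Q ^ (r + 1) * N := by rw [pow_succ Q, hQ]; ring
    have l2 := mono (r + 1) (S.card ^ (2 * D) + 1) (by omega)
    have l3 : Q ^ r * N ≤ 3 ^ (C + 3) * (Q ^ r * N) := Nat.le_mul_of_pos_left _ (by positivity)
    obtain ⟨n, i, j, h1, h1', h2, h3, h4⟩ := good_scale hs (C := C) (N := Q ^ r * N)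
      (B := 3 ^ (C + 3) * (Q ^ r * N)) (fun n a b => by
        by_contra h; exact hc ⟨n, by omega, by omega, h⟩) (by omega) le_rfl
    have := h4.lt hs h2
    refine ⟨j - i, fun _ => ⟨by omega, by omega, fun t t1 t2 => ?_⟩⟩
    have d := h4 (t - i) (by omega)
    rwa [show i + (t - i) = t by omega, show j + (t - i) = t + (j - i) by omega] at d
  choose P hP using ex
  have no : ∀ a b, a < b → b ≤ S.card ^ (2 * D) →
      ((fun s : Fin (2 * D) => y (P b - D + s)) = fun s : Fin (2 * D) => y (P a - D + s)) →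
      False := by
    intro a b hab hb e
    obtain ⟨p0, p1, p2⟩ := hP a (by omega)
    obtain ⟨q0, -, q2⟩ := hP b hb
    have l0 : N ≤ Q ^ a * N := by simpa using mono 0 a (Nat.zero_le _)
    have l1 := mono (a + 1) b hab
    generalize P a = p at *
    generalize P b = q at *
    refine hs ⟨q - D, p, by omega, fun t ht => ?_⟩
    by_cases h2 : t < 2 * D
    · have := congrFun e ⟨t, h2⟩
      simp only at this
      rw [this, q2 (p - D + t) (by omega) (by omega)]
      congr 1; omega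
    · rw [show q - D + t = t - D + q by omega, ← q2 _ (by omega) (by omega),
        p2 _ (by omega) (by omega), q2 _ (by omega) (by omega)]
      congr 1; omega
  obtain ⟨a, ha, b, hb, hab, e⟩ := Finset.exists_ne_map_eq_of_card_lt_of_maps_to
    (s := Finset.range (S.card ^ (2 * D) + 1)) (t := Fintype.piFinset fun _ : Fin (2 * D) => S)
    (by simp) (f := fun r (s : Fin (2 * D)) => y (P r - D + s))
    (fun r _ => by simp [hS])
  rw [Finset.mem_range] at ha hb
  rcases lt_or_gt_of_ne hab with h | h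
  · exact no a b h (by omega) e.symm
  · exact no b a h (by omega) e

theorem loglog_le {k C n : ℕ} (hC : 1 ≤ C)
    (h : n ≤ (3 ^ (C + 4)) ^ (k ^ (20 * C + 20) + 1) * (20 * C + 20)) :
    Nat.log 2 (Nat.log 2 n) ≤ (40 * k + 7) * C := by
  have h1 : k ^ (20 * C + 20) ≤ 2 ^ (40 * k * C) :=
    calc k ^ (20 * C + 20) ≤ (2 ^ k) ^ (20 * C + 20) := Nat.pow_le_pow_left Nat.lt_two_pow_self.le _
      _ = 2 ^ (k * (20 * C + 20)) := by rw [← pow_mul]
      _ ≤ _ := Nat.pow_le_pow_right two_pos (by nlinarith)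
  have h2 : n ≤ 2 ^ (2 * (C + 4) * (k ^ (20 * C + 20) + 1) + (20 * C + 20)) := by
    rw [pow_add 2 _ (20 * C + 20), pow_mul, pow_mul]
    exact h.trans (Nat.mul_le_mul (Nat.pow_le_pow_left (Nat.pow_le_pow_left (by norm_num) _) _)
      Nat.lt_two_pow_self.le)
  have h3 : 2 * (C + 4) * (k ^ (20 * C + 20) + 1) + (20 * C + 20) ≤ 2 ^ ((40 * k + 7) * C) := by
    have a1 : 1 ≤ 2 ^ (40 * k * C) := Nat.one_le_two_pow
    have a2 : C ≤ 2 ^ C := Nat.lt_two_pow_self.le
    have a3 : 2 ^ (40 * k * C + C + 6) ≤ 2 ^ ((40 * k + 7) * C) :=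
      Nat.pow_le_pow_right two_pos (by nlinarith)
    refine le_trans ?_ a3
    rw [pow_add 2 _ 6, pow_add 2 _ C]
    generalize 2 ^ (40 * k * C) = X at *
    generalize k ^ (20 * C + 20) = U at *
    calc 2 * (C + 4) * (U + 1) + (20 * C + 20) ≤ 10 * C * (2 * X) + 40 * C * X :=
          add_le_add (Nat.mul_le_mul (by omega) (by omega)) (by nlinarith)
      _ = X * C * 60 := by ring
      _ ≤ _ := Nat.mul_le_mul (Nat.mul_le_mul_left _ a2) (by norm_num)
  have h4 := Nat.log_mono_right (b := 2) h2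
  rw [Nat.log_pow (by norm_num)] at h4
  have h5 := Nat.log_mono_right (b := 2) (h4.trans h3)
  rwa [Nat.log_pow (by norm_num)] at h5

open Filter in
theorem excess_lower (hs : IsSquarefree y) {S : Finset ℕ} (hS : ∀ n, y n ∈ S) {K : ℕ}
    (hK : 40 * S.card + 7 ≤ K) : ∃ᶠ n : ℕ in atTop,
      ((2 * n + Nat.log 2 (Nat.log 2 n) / K : ℕ) : ℕ∞) < nsc y n := by
  refine frequently_atTop.2 fun N => ?_
  obtain ⟨n, h1, h2, h3⟩ := window hs hS (C := N + 1) le_rfl
  refine ⟨n, by omega, not_le.1 fun h => h3 ?_⟩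
  obtain ⟨i, j, a1, a2, a3⟩ := (nsc_le_iff y n _).1 h
  have := Nat.div_le_of_le_mul ((loglog_le (by omega) h2).trans (Nat.mul_le_mul_right _ hK))
  exact ⟨i, j, a1, by omega, a3⟩

end Pool.Agent.P.MP_2232d5_co
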