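import Pool.Agent.P.MP_2232d5_co.Nu

namespace Pool.Agent.P.MP_2232d5_co

/-- Hypotheses on a word indexed from 1. -/
structure Hyp (Y : ℕ → ℕ) : Prop where
  sq : ∀ a p, 1 ≤ a → 1 ≤ p → ¬ ∀ t < p, Y (a + t) = Y (a + p + t)
  rep : ∀ n, 1 ≤ n → ∃ i j, 1 ≤ i ∧ i < j ∧ j ≤ 2 * n + 1 ∧ ∀ t < n, Y (i + t) = Y (j + t)

theorem Hyp.rep' {Y : ℕ → ℕ} (H : Hyp Y) (n : ℕ) (hn : 1 ≤ n) :
    ∃ i j, 1 ≤ i ∧ i + n + 1 ≤ j ∧ j ≤ 2 * n + 1 ∧ ∀ t < n, Y (i + t) = Y (j + t) := by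
  obtain ⟨i, j, h1, h2, h3, h4⟩ := H.rep n hn
  refine ⟨i, j, h1, ?_, h3, h4⟩
  by_contra hc
  obtain ⟨p, rfl⟩ : ∃ p, j = i + p := ⟨j - i, by omega⟩
  exact H.sq i p h1 (by omega) fun t ht => h4 t (by omega)

/-- The data: the prefix of length `2 ^ (k+1)` is known. -/
structure Pre (Y σ : ℕ → ℕ) (k : ℕ) : Prop where
  inj : ∀ a b, a ≤ k + 1 → b ≤ k + 1 → σ a = σ b → a = b
  pre : ∀ t, 1 ≤ t → t ≤ 2 ^ (k + 1) → Y t = σ (nu t)

theorem Pre.late {Y σ : ℕ → ℕ} {k : ℕ} (Q : Pre Y σ k) {n i j : ℕ} (hn : 2 ^ k ≤ n)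
    (hi : 1 ≤ i) (hij : i + n + 1 ≤ j) (h : ∀ t < n, Y (i + t) = Y (j + t)) :
    2 ^ (k + 1) + 1 ≤ j := by
  by_contra hc
  have hP : 2 ^ (k + 1) = 2 * 2 ^ k := by ring
  have h1 := h (2 ^ (k + 1) - j) (by omega)
  rw [show j + (2 ^ (k + 1) - j) = 2 ^ (k + 1) by omega, Q.pre _ (by omega) (by omega),
    Q.pre _ (by omega) le_rfl, nu_pow] at h1
  have h2 : nu (i + (2 ^ (k + 1) - j)) < k + 1 := nu_lt (by omega) (by omega)
  have := Q.inj _ _ (by omega) le_rfl h1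
  omega

/-- The periodic continuation with phase `i0` holds up to `L` and fails at `L + 1`. -/
structure Dev (Y σ : ℕ → ℕ) (k i0 L : ℕ) : Prop where
  i0_lt : i0 < 2 ^ k
  le_L : 2 ^ k ≤ L
  L_lt : L < 2 ^ (k + 1)
  agree : ∀ t, 1 ≤ t → t ≤ L → Y (2 ^ (k + 1) + t) = σ (min (nu (i0 + t)) k)
  dev : Y (2 ^ (k + 1) + L + 1) ≠ σ (min (nu (i0 + L + 1)) k)

theorem exists_dev {Y σ : ℕ → ℕ} {k : ℕ} (H : Hyp Y) (Q : Pre Y σ k) :
    ∃ i0 L, Dev Y σ k i0 L := by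
  have hP : 2 ^ (k + 1) = 2 * 2 ^ k := by ring
  have hpos : 1 ≤ 2 ^ k := Nat.one_le_two_pow
  obtain ⟨i, j, h1, h2, h3, h4⟩ := H.rep' (2 ^ k) hpos
  have hj := Q.late le_rfl h1 h2 h4
  obtain rfl : j = 2 ^ (k + 1) + 1 := by omega
  obtain ⟨i0, rfl⟩ : ∃ i0, i = i0 + 1 := ⟨i - 1, by omega⟩
  have hex : ∃ t, 1 ≤ t ∧ Y (2 ^ (k + 1) + t) ≠ σ (min (nu (i0 + t)) k) ∧ t ≤ 2 ^ (k + 1) := by
    by_contra hc
    push Not at hc
    refine H.sq (2 ^ (k + 1) + 1) (2 ^ k) (by omega) hpos fun t ht => ?_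
    have e1 : Y (2 ^ (k + 1) + (1 + t)) = σ (min (nu (i0 + (1 + t))) k) := by
      by_contra hne
      have := hc (1 + t) (by omega) hne
      omega
    have e2 : Y (2 ^ (k + 1) + (2 ^ k + (1 + t))) = σ (min (nu (i0 + (2 ^ k + (1 + t)))) k) := by
      by_contra hne
      have := hc (2 ^ k + (1 + t)) (by omega) hne
      omega
    rw [show i0 + (2 ^ k + (1 + t)) = 2 ^ k + (i0 + (1 + t)) by ring,
      cap_add dvd_rfl (by omega)] at e2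
    rw [show 2 ^ (k + 1) + 1 + t = 2 ^ (k + 1) + (1 + t) by ring,
      show 2 ^ (k + 1) + 1 + 2 ^ k + t = 2 ^ (k + 1) + (2 ^ k + (1 + t)) by ring, e1, e2]
  classical
  obtain ⟨g1, g2, g3⟩ := Nat.find_spec hex
  have hmin : ∀ t, 1 ≤ t → t < Nat.find hex → Y (2 ^ (k + 1) + t) = σ (min (nu (i0 + t)) k) := by
    intro t ht htl
    by_contra hne
    exact Nat.find_min hex htl ⟨ht, hne, by omega⟩
  have hge : 2 ^ k < Nat.find hex := by
    by_contra hc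
    apply g2
    have e := h4 (Nat.find hex - 1) (by omega)
    rw [show 2 ^ (k + 1) + 1 + (Nat.find hex - 1) = 2 ^ (k + 1) + Nat.find hex by omega,
      show i0 + 1 + (Nat.find hex - 1) = i0 + Nat.find hex by omega] at e
    rw [← e, Q.pre _ (by omega) (by omega)]
    have : nu (i0 + Nat.find hex) < k + 1 := nu_lt (by omega) (by omega)
    rw [min_eq_left (by omega)]
  refine ⟨i0, Nat.find hex - 1, by omega, by omega, by omega, fun t h1 h2 => hmin t h1 (by omega), ?_⟩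
  rw [show 2 ^ (k + 1) + (Nat.find hex - 1) + 1 = 2 ^ (k + 1) + Nat.find hex by omega,
    show i0 + (Nat.find hex - 1) + 1 = i0 + Nat.find hex by omega]
  exact g2

/-- Key lemma: a repeat whose second occurrence covers the deviation. -/
theorem key {Y σ : ℕ → ℕ} {k i0 L : ℕ} (H : Hyp Y) (Q : Pre Y σ k) (D : Dev Y σ k i0 L)
    {n i j l : ℕ} (hn : n < 2 ^ (k + 1)) (hi : 1 ≤ i) (hij : i + n + 1 ≤ j) (hj : j ≤ 2 * n + 1)
    (hj' : 2 ^ (k + 1) + 1 ≤ j) (hl : j + l = 2 ^ (k + 1) + L + 1) (hln : l < n)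
    (h : ∀ t < n, Y (i + t) = Y (j + t)) :
    i + l ≤ 2 ^ (k + 1) ∧ min (nu (i0 + L + 1)) k < nu (i + l) ∧
      (nu (i0 + L + 1) < k → l < 2 ^ nu (i0 + L + 1)) := by
  have hP : 2 ^ (k + 1) = 2 * 2 ^ k := by ring
  have hpos : 1 ≤ 2 ^ k := Nat.one_le_two_pow
  have hL := D.le_L
  have hA : i + l ≤ 2 ^ (k + 1) := by
    by_contra hc
    have e := h (2 ^ (k + 1) - i) (by omega)
    rw [show i + (2 ^ (k + 1) - i) = 2 ^ (k + 1) by omega, Q.pre _ (by omega) le_rfl, nu_pow,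
      show j + (2 ^ (k + 1) - i) = 2 ^ (k + 1) + (j - i) by omega,
      D.agree _ (by omega) (by omega)] at e
    have := Q.inj _ _ le_rfl (by omega) e
    omega
  have hD : Y (2 ^ (k + 1) + L + 1) = σ (nu (i + l)) := by
    rw [← hl, ← h l hln, Q.pre _ (by omega) hA]
  have hne : nu (i + l) ≠ min (nu (i0 + L + 1)) k := by
    intro e
    apply D.dev
    rw [hD, e]
  have hc : min (nu (i0 + L + 1)) k < nu (i + l) := by
    by_contra hc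
    set c := nu (i + l) with hcdef
    have hc1 : c + 1 ≤ nu (i0 + L + 1) := by omega
    have hc2 : c + 1 ≤ k := by omega
    have hdvd : 2 ^ (c + 1) ∣ i0 + L + 1 := (le_nu_iff (by omega) _).1 hc1
    have hle : 2 ^ (c + 1) ≤ 2 ^ k := Nat.pow_le_pow_right (by norm_num) hc2
    have hc3 : 2 ^ (c + 1) = 2 * 2 ^ c := by ring
    have hcpos : 1 ≤ 2 ^ c := Nat.one_le_two_pow
    obtain ⟨b, hb⟩ : ∃ b, i0 + L + 1 = b + 2 ^ (c + 1) := ⟨i0 + L + 1 - 2 ^ (c + 1), by omega⟩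
    have hbd : 2 ^ (c + 1) ∣ b := by
      rw [hb] at hdvd
      exact (Nat.dvd_add_left dvd_rfl).1 hdvd
    have hbd' : 2 ^ c ∣ b := (pow_dvd_pow 2 (by omega)).trans hbd
    refine H.sq (2 ^ (k + 1) + (L + 2 - 2 ^ (c + 1))) (2 ^ c) (by omega) hcpos fun t ht => ?_
    rw [show 2 ^ (k + 1) + (L + 2 - 2 ^ (c + 1)) + t = 2 ^ (k + 1) + (L + 2 - 2 ^ (c + 1) + t) by ring,
      D.agree _ (by omega) (by omega),
      show i0 + (L + 2 - 2 ^ (c + 1) + t) = b + (t + 1) by omega]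
    by_cases htc : t + 1 = 2 ^ c
    · rw [show 2 ^ (k + 1) + (L + 2 - 2 ^ (c + 1)) + 2 ^ c + t = 2 ^ (k + 1) + L + 1 by omega, hD,
        nu_add' hbd (by omega) (by omega), htc, nu_pow, min_eq_left (by omega)]
    · rw [show 2 ^ (k + 1) + (L + 2 - 2 ^ (c + 1)) + 2 ^ c + t
          = 2 ^ (k + 1) + (L + 2 - 2 ^ (c + 1) + 2 ^ c + t) by ring,
        D.agree _ (by omega) (by omega),
        show i0 + (L + 2 - 2 ^ (c + 1) + 2 ^ c + t) = (b + 2 ^ c) + (t + 1) by omega,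
        nu_add' hbd' (by omega) (by omega),
        nu_add' (dvd_add hbd' dvd_rfl) (by omega) (by omega)]
  refine ⟨hA, hc, fun hm => ?_⟩
  by_contra hcon
  set m := nu (i0 + L + 1) with hmdef
  rw [min_eq_left hm.le] at hc
  have hmpos : 1 ≤ 2 ^ m := Nat.one_le_two_pow
  have hm3 : 2 ^ (m + 1) = 2 * 2 ^ m := by ring
  have e := h (l - 2 ^ m) (by omega)
  have hdA : 2 ^ (m + 1) ∣ i + l := (le_nu_iff (by omega) _).1 hc
  have hleA := Nat.le_of_dvd (by omega) hdA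
  obtain ⟨b, hb⟩ : ∃ b, i + l = b + 2 ^ (m + 1) := ⟨i + l - 2 ^ (m + 1), by omega⟩
  have hbd : 2 ^ (m + 1) ∣ b := by
    rw [hb] at hdA
    exact (Nat.dvd_add_left dvd_rfl).1 hdA
  obtain ⟨r, hr⟩ := exists_odd (show 0 < i0 + L + 1 by omega)
  rw [← hmdef] at hr
  have hr' : i0 + L + 1 = 2 ^ (m + 1) * r + 2 ^ m := by rw [hr]; ring
  rw [show i + (l - 2 ^ m) = b + 2 ^ m by omega, Q.pre _ (by omega) (by omega),
    nu_add' hbd (by omega) (by omega), nu_pow,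
    show j + (l - 2 ^ m) = 2 ^ (k + 1) + (L + 1 - 2 ^ m) by omega,
    D.agree _ (by omega) (by omega),
    show i0 + (L + 1 - 2 ^ m) = 2 ^ (m + 1) * r by omega] at e
  have e' := Q.inj _ _ (by omega) (by omega) e
  have : m + 1 ≤ nu (2 ^ (m + 1) * r) := (le_nu_iff (by omega) _).2 (dvd_mul_right _ _)
  omega

theorem short_dev {Y σ : ℕ → ℕ} {k i0 L : ℕ} (H : Hyp Y) (Q : Pre Y σ k) (D : Dev Y σ k i0 L)
    (hL2 : L + 2 ≤ 2 ^ (k + 1)) :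
    nu (i0 + L + 1) < k ∧ 2 ^ (k + 1) ≤ L + 1 + 2 ^ nu (i0 + L + 1) ∧ i0 ≠ 0 := by
  have hP : 2 ^ (k + 1) = 2 * 2 ^ k := by ring
  have hpos : 1 ≤ 2 ^ k := Nat.one_le_two_pow
  have hL := D.le_L
  obtain ⟨i, j, h1, h2, h3, h4⟩ := H.rep' (L + 1) (by omega)
  have hj := Q.late (by omega) h1 h2 h4
  obtain ⟨l, hl⟩ : ∃ l, j + l = 2 ^ (k + 1) + L + 1 := ⟨2 ^ (k + 1) + L + 1 - j, by omega⟩
  obtain ⟨g1, g2, g3⟩ := key H Q D (by omega) h1 h2 h3 hj hl (by omega) h4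
  have hc : nu (i + l) < k + 1 := nu_lt (by omega) (by omega)
  have hm : nu (i0 + L + 1) < k := by omega
  have g4 := g3 hm
  refine ⟨hm, by omega, ?_⟩
  rintro rfl
  simp only [zero_add] at g2 g4 hm
  set m := nu (L + 1) with hmdef
  set c := nu (i + l) with hcdef
  rw [min_eq_left hm.le] at g2
  have hmpos : 1 ≤ 2 ^ m := Nat.one_le_two_pow
  have hdm : 2 ^ m ∣ L + 1 := (le_nu_iff (by omega) _).1 le_rfl
  have hdP : 2 ^ m ∣ 2 ^ (k + 1) := pow_dvd_pow 2 (by omega)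
  have hs : 2 ^ (k + 1) = L + 1 + 2 ^ m := by
    obtain ⟨s, hs⟩ : ∃ s, 2 ^ (k + 1) = L + 1 + s := ⟨2 ^ (k + 1) - (L + 1), by omega⟩
    have : 2 ^ m ∣ s := by
      rw [hs] at hdP
      exact (Nat.dvd_add_right hdm).1 hdP
    have := Nat.le_of_dvd (by omega) this
    omega
  have hmc : 2 ^ (m + 1) ≤ 2 ^ c := Nat.pow_le_pow_right (by norm_num) g2
  have hm3 : 2 ^ (m + 1) = 2 * 2 ^ m := by ring
  have hck : 2 ^ c ≤ 2 ^ k := Nat.pow_le_pow_right (by norm_num) (by omega)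
  have hdA : 2 ^ c ∣ i + l := (le_nu_iff (by omega) _).1 le_rfl
  have hcP : 2 ^ (c + 1) ∣ 2 ^ (k + 1) := pow_dvd_pow 2 (by omega)
  have hc3 : 2 ^ (c + 1) = 2 * 2 ^ c := by ring
  have hAle : i + l + 2 ^ c ≤ 2 ^ (k + 1) := by
    obtain ⟨s, hs⟩ : ∃ s, 2 ^ (k + 1) = i + l + s := ⟨2 ^ (k + 1) - (i + l), by omega⟩
    have h5 : 2 ^ c ∣ 2 ^ (k + 1) := pow_dvd_pow 2 (by omega)
    have : 2 ^ c ∣ s := by
      rw [hs] at h5
      exact (Nat.dvd_add_right hdA).1 h5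
    have := Nat.le_of_dvd (by omega) this
    omega
  obtain ⟨b, hb⟩ : ∃ b, 2 ^ (k + 1) = b + 2 ^ (c + 1) := ⟨2 ^ (k + 1) - 2 ^ (c + 1), by omega⟩
  have hbd : 2 ^ (c + 1) ∣ b := by
    rw [hb] at hcP
    exact (Nat.dvd_add_left dvd_rfl).1 hcP
  have hbd' : 2 ^ c ∣ b := (pow_dvd_pow 2 (by omega)).trans hbd
  refine H.sq (2 ^ (k + 1) + (b + 2 ^ c)) (2 ^ c - 2 ^ m) (by omega) (by omega) fun t ht => ?_
  rw [show 2 ^ (k + 1) + (b + 2 ^ c) + t = 2 ^ (k + 1) + (b + 2 ^ c + t) by ring,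
    D.agree _ (by omega) (by omega), zero_add,
    show 2 ^ (k + 1) + (b + 2 ^ c) + (2 ^ c - 2 ^ m) + t = j + (l + t) by omega,
    ← h4 _ (by omega), Q.pre _ (by omega) (by omega), ← add_assoc]
  rcases Nat.eq_zero_or_pos t with rfl | htp
  · rw [add_zero, add_zero, nu_add' hbd (by omega) (by omega), nu_pow, min_eq_left (by omega)]
  · rw [nu_add' (dvd_add hbd' dvd_rfl) htp (by omega), nu_add' hdA htp (by omega),
      min_eq_left]
    have : nu t < c := nu_lt htp (by omega)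
    omega

theorem dev_zero {Y σ : ℕ → ℕ} {k i0 L : ℕ} (H : Hyp Y) (Q : Pre Y σ k) (D : Dev Y σ k i0 L) :
    i0 = 0 := by
  by_contra hi0
  have hP : 2 ^ (k + 1) = 2 * 2 ^ k := by ring
  have hpos : 1 ≤ 2 ^ k := Nat.one_le_two_pow
  have hL := D.le_L
  have hL' := D.L_lt
  have hi0' := D.i0_lt
  have hm : nu (i0 + L + 1) < k ∧ 2 ^ (k + 1) ≤ L + 1 + 2 ^ nu (i0 + L + 1) := by
    by_cases hL2 : L + 2 ≤ 2 ^ (k + 1)
    · obtain ⟨g1, g2, _⟩ := short_dev H Q D hL2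
      exact ⟨g1, g2⟩
    · refine ⟨?_, le_trans (by omega) (Nat.le_add_right (L + 1) _)⟩
      rw [show i0 + L + 1 = 2 ^ (k + 1) + i0 by omega,
        nu_add' dvd_rfl (by omega) (by omega)]
      exact nu_lt (by omega) hi0'
  obtain ⟨hm1, hm2⟩ := hm
  obtain ⟨r, hr⟩ := exists_odd (show 0 < i0 + L + 1 by omega)
  have hkey := @key Y σ k i0 L H Q D
  set m := nu (i0 + L + 1) with hmdef
  have hmpos : 1 ≤ 2 ^ m := Nat.one_le_two_pow
  obtain ⟨q, hq⟩ : 2 ^ (m + 1) ∣ 2 ^ k := pow_dvd_pow 2 (by omega)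
  have hq' : 2 ^ k = 2 ^ m * (2 * q) := by rw [hq]; ring
  obtain ⟨s, hs⟩ : ∃ s, 2 ^ (k + 1) = L + 1 + s := ⟨2 ^ (k + 1) - (L + 1), by omega⟩
  have hs' : s ≤ 2 ^ m := by omega
  have hlow : s + 2 ^ m ≤ i0 := by
    have e1 : 2 ^ m * (2 * r + 2) = 2 ^ m * (2 * r + 1) + 2 ^ m := by ring
    have e2 : 2 ^ m * (4 * q) = 2 * (2 ^ m * (2 * q)) := by ring
    have e3 : 2 ^ m * (4 * q + 1) = 2 * (2 ^ m * (2 * q)) + 2 ^ m := by ring
    have h1 : 2 ^ m * (4 * q) < 2 ^ m * (2 * r + 2) := by omega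
    have h2 : 4 * q < 2 * r + 2 := lt_of_mul_lt_mul_left h1 (by omega)
    have h3 : 2 ^ m * (4 * q + 1) ≤ 2 ^ m * (2 * r + 1) := Nat.mul_le_mul_left _ (by omega)
    omega
  have hhigh : i0 + 2 ^ m ≤ 2 ^ k + s := by
    have e1 : 2 ^ m * (2 * r + 2) = 2 ^ m * (2 * r + 1) + 2 ^ m := by ring
    have e2 : 2 ^ m * (6 * q) = 3 * (2 ^ m * (2 * q)) := by ring
    have h1 : 2 ^ m * (2 * r + 1) < 2 ^ m * (6 * q) := by omega
    have h2 : 2 * r + 1 < 6 * q := lt_of_mul_lt_mul_left h1 (by omega)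
    have h3 : 2 ^ m * (2 * r + 2) ≤ 2 ^ m * (6 * q) := Nat.mul_le_mul_left _ (by omega)
    omega
  obtain ⟨n, hn⟩ : ∃ n, n = max (2 ^ (k + 1) - i0) (2 ^ k + i0 - s) := ⟨_, rfl⟩
  have hn1 : 2 ^ (k + 1) - i0 ≤ n := by omega
  have hn2 : 2 ^ k + i0 - s ≤ n := by omega
  have hn3 : n < 2 ^ (k + 1) := by omega
  obtain ⟨i, j, h1, h2, h3, h4⟩ := H.rep' n (by omega)
  have hj := Q.late (by omega) h1 h2 h4
  obtain ⟨l, hl⟩ : ∃ l, j + l = 2 ^ (k + 1) + L + 1 := ⟨2 ^ (k + 1) + L + 1 - j, by omega⟩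
  have hl2 : 2 ^ m ≤ l := by omega
  have hln : l < n := by
    by_contra hc
    have hin : i + n ≤ 2 ^ (k + 1) := by
      by_contra hc2
      have e := h4 (2 ^ (k + 1) - i) (by omega)
      rw [show i + (2 ^ (k + 1) - i) = 2 ^ (k + 1) by omega, Q.pre _ (by omega) le_rfl, nu_pow,
        show j + (2 ^ (k + 1) - i) = 2 ^ (k + 1) + (j - i) by omega,
        D.agree _ (by omega) (by omega)] at e
      have := Q.inj _ _ le_rfl (by omega) e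
      omega
    have e := h4 (2 ^ k - i) (by omega)
    rw [show i + (2 ^ k - i) = 2 ^ k by omega, Q.pre _ (by omega) (by omega), nu_pow,
      show j + (2 ^ k - i) = 2 ^ (k + 1) + (j - i - 2 ^ k) by omega,
      D.agree _ (by omega) (by omega)] at e
    have e' := Q.inj _ _ (by omega) (by omega) e
    have hd : 2 ^ k ∣ i0 + (j - i - 2 ^ k) := (le_nu_iff (by omega) _).1 (by omega)
    obtain ⟨w, hw⟩ := hd
    have hw0 : w ≠ 0 := by rintro rfl; omega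
    rcases Nat.lt_or_ge w 2 with hw2 | hw2
    · obtain rfl : w = 1 := by omega
      omega
    · have : 2 ^ k * 2 ≤ 2 ^ k * w := Nat.mul_le_mul_left _ hw2
      omega
  obtain ⟨_, _, g3⟩ := hkey hn3 h1 h2 h3 hj hl hln h4
  have := g3 hm1
  omega

theorem step {Y σ : ℕ → ℕ} {k : ℕ} (H : Hyp Y) (Q : Pre Y σ k) :
    ∀ t, 1 ≤ t → t < 2 ^ (k + 1) → Y (2 ^ (k + 1) + t) = σ (nu t) := by
  obtain ⟨i0, L, D⟩ := exists_dev H Q
  obtain rfl := dev_zero H Q D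
  have hL : ¬ L + 2 ≤ 2 ^ (k + 1) := fun h => (short_dev H Q D h).2.2 rfl
  intro t h1 h2
  rw [D.agree t h1 (by omega), zero_add, min_eq_left]
  have := nu_lt h1 h2
  omega

end Pool.Agent.P.MP_2232d5_co
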