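import Pool.Agent.P.MP_2232d5_co.Defs
import Pool.Agent.P.MP_2232d5_co.Step

namespace Pool.Agent.P.MP_2232d5_co

theorem all_pre {Y : ℕ → ℕ} (H : Hyp Y) (k : ℕ) :
    (∀ a b, a ≤ k → b ≤ k → Y (2 ^ a) = Y (2 ^ b) → a = b) ∧
      ∀ t, 1 ≤ t → t < 2 ^ (k + 1) → Y t = Y (2 ^ nu t) := by
  induction k with
  | zero =>
    refine ⟨fun a b ha hb _ => by omega, fun t h1 h2 => ?_⟩
    obtain rfl : t = 1 := by omega
    have : nu 1 = 0 := nu_pow 0
    rw [this, pow_zero]
  | succ k ih =>
    obtain ⟨ih1, ih2⟩ := ih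
    have hnew : ∀ c, c ≤ k → Y (2 ^ (k + 1)) ≠ Y (2 ^ c) := by
      intro c hc he
      have hcP : 2 ^ (c + 1) ∣ 2 ^ (k + 1) := pow_dvd_pow 2 (by omega)
      have hle := Nat.le_of_dvd (by positivity) hcP
      have hc3 : 2 ^ (c + 1) = 2 * 2 ^ c := by ring
      have hcpos : 1 ≤ 2 ^ c := Nat.one_le_two_pow
      obtain ⟨b, hb⟩ : ∃ b, 2 ^ (k + 1) = b + 2 ^ (c + 1) := ⟨2 ^ (k + 1) - 2 ^ (c + 1), by omega⟩
      have hbd : 2 ^ (c + 1) ∣ b := by
        rw [hb] at hcP
        exact (Nat.dvd_add_left dvd_rfl).1 hcP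
      have hbd' : 2 ^ c ∣ b := (pow_dvd_pow 2 (by omega)).trans hbd
      refine H.sq (b + 1) (2 ^ c) (by omega) hcpos fun t ht => ?_
      rw [ih2 _ (by omega) (by omega), show b + 1 + t = b + (t + 1) by ring]
      by_cases htc : t + 1 = 2 ^ c
      · rw [show b + 1 + 2 ^ c + t = 2 ^ (k + 1) by omega, he,
          nu_add' hbd (by omega) (by omega), htc, nu_pow]
      · rw [ih2 (b + 1 + 2 ^ c + t) (by omega) (by omega),
          show b + 1 + 2 ^ c + t = (b + 2 ^ c) + (t + 1) by ring,
          nu_add' hbd' (by omega) (by omega), nu_add' (dvd_add hbd' dvd_rfl) (by omega) (by omega)]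
    have hinj : ∀ a b, a ≤ k + 1 → b ≤ k + 1 → Y (2 ^ a) = Y (2 ^ b) → a = b := by
      intro a b ha hb he
      by_cases ha' : a = k + 1
      · by_cases hb' : b = k + 1
        · omega
        · subst ha'; exact absurd he (hnew b (by omega))
      · by_cases hb' : b = k + 1
        · subst hb'; exact absurd he.symm (hnew a (by omega))
        · exact ih1 a b (by omega) (by omega) he
    have Q : Pre Y (fun c => Y (2 ^ c)) k := by
      refine ⟨hinj, fun t h1 h2 => ?_⟩
      rcases h2.lt_or_eq with h2 | rfl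
      · exact ih2 t h1 h2
      · simp only [nu_pow]
    refine ⟨hinj, fun t h1 h2 => ?_⟩
    by_cases ht : t ≤ 2 ^ (k + 1)
    · exact Q.pre t h1 ht
    · have hP : 2 ^ (k + 1 + 1) = 2 * 2 ^ (k + 1) := by ring
      obtain ⟨s, rfl⟩ : ∃ s, t = 2 ^ (k + 1) + s := ⟨t - 2 ^ (k + 1), by omega⟩
      rw [step H Q s (by omega) (by omega), nu_add' dvd_rfl (by omega) (by omega)]

theorem zimin_length (k : ℕ) : (zimin k).length + 1 = 2 ^ k := by
  induction k with
  | zero => simp [zimin]
  | succ k ih => simp only [zimin, List.length_append, List.length_singleton, pow_succ]; omega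

theorem zimin_eq (k : ℕ) : (List.range (zimin k).length).map (fun t => nu (t + 1)) = zimin k := by
  induction k with
  | zero => simp [zimin]
  | succ k ih =>
    have hl := zimin_length k
    conv_rhs => rw [zimin, ← ih]
    rw [show (zimin (k + 1)).length = ((zimin k).length + 1) + (zimin k).length by
      simp [zimin]; omega, List.range_add, List.range_succ, List.map_append, List.map_append,
      List.map_map]
    congr 1
    · congr 1
      simp [hl, nu_pow]
    · apply List.map_congr_left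
      intro t ht
      have := List.mem_range.1 ht
      simp only [Function.comp]
      rw [hl, add_assoc, nu_add' dvd_rfl (by omega) (by omega)]

theorem ruler_eq {x : ℕ → ℕ} (hx : ∀ k, (List.range (zimin k).length).map x = zimin k) (t : ℕ) :
    x t = nu (t + 1) := by
  have h := (hx (t + 1)).trans (zimin_eq (t + 1)).symm
  have hl := zimin_length (t + 1)
  have hlt : t + 1 < 2 ^ (t + 1) := Nat.lt_two_pow_self
  exact List.map_inj_left.1 h t (List.mem_range.2 (by omega))

theorem nsc_le_iff (y : ℕ → ℕ) (n N : ℕ) :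
    nsc y n ≤ (N : ℕ∞) ↔ ∃ i j, i < j ∧ j ≤ N ∧ ∀ t < n, y (i + t) = y (j + t) := by
  unfold nsc
  simp only [iSup_le_iff, Nat.cast_le]
  constructor
  · intro h
    by_contra hc
    have := h (N + 1) fun i j hij hj hh => hc ⟨i, j, hij, by omega, hh⟩
    omega
  · rintro ⟨i, j, hij, hj, hh⟩ m hm
    by_contra hc
    exact hm i j hij (by omega) hh

theorem main (x : ℕ → ℕ) (hx : ∀ k, (List.range (zimin k).length).map x = zimin k) (y : ℕ → ℕ) :
    (IsSquarefree y ∧ ∀ n : ℕ, 1 ≤ n → nsc y n ≤ 2 * (n : ℕ∞)) ↔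
      ∃ σ : ℕ → ℕ, Function.Injective σ ∧ y = σ ∘ x := by
  have hcast : ∀ n : ℕ, 2 * (n : ℕ∞) = ((2 * n : ℕ) : ℕ∞) := fun n => by push_cast; rfl
  constructor
  · rintro ⟨hsq, hn⟩
    have H : Hyp (fun t => y (t - 1)) := by
      constructor
      · intro a p ha hp h
        refine hsq ⟨a - 1, p, hp, fun t ht => ?_⟩
        have := h t ht
        rwa [show a + t - 1 = a - 1 + t by omega, show a + p + t - 1 = a - 1 + p + t by omega] at this
      · intro n h1
        obtain ⟨i, j, hij, hj, hh⟩ := (nsc_le_iff y n (2 * n)).1 (hcast n ▸ hn n h1)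
        refine ⟨i + 1, j + 1, by omega, by omega, by omega, fun t ht => ?_⟩
        rw [show i + 1 + t - 1 = i + t by omega, show j + 1 + t - 1 = j + t by omega]
        exact hh t ht
    refine ⟨fun c => y (2 ^ c - 1), fun a b hab => (all_pre H (max a b)).1 a b (by omega) (by omega) hab,
      funext fun t => ?_⟩
    have hlt : t + 1 < 2 ^ (t + 1) := Nat.lt_two_pow_self
    have := (all_pre H t).2 (t + 1) (by omega) hlt
    simpa [ruler_eq hx t] using this
  · rintro ⟨σ, hσ, rfl⟩
    constructor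
    · rintro ⟨i, p, hp, h⟩
      obtain ⟨r, hr⟩ := exists_odd hp
      set c := nu p with hc
      have hcpos : 0 < 2 ^ c := by positivity
      have hle : 2 ^ c ≤ p := by rw [hr]; nlinarith
      obtain ⟨t, ht, q, hq⟩ : ∃ t < p, ∃ q, i + t + 1 = 2 ^ c * q := by
        refine ⟨2 ^ c - 1 - i % 2 ^ c, by omega, i / 2 ^ c + 1, ?_⟩
        have h1 := Nat.div_add_mod i (2 ^ c)
        have h2 := Nat.mod_lt i hcpos
        rw [mul_add, mul_one]
        omega
      have e := hσ (h t ht)
      rw [ruler_eq hx, ruler_eq hx, show i + p + t + 1 = (i + t + 1) + p by ring, hq] at e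
      have hq0 : 0 < q := by
        rcases Nat.eq_zero_or_pos q with rfl | h0
        · simp at hq
        · exact h0
      have hpos1 : 0 < 2 ^ c * q := by positivity
      rcases Nat.even_or_odd' q with ⟨u, rfl | rfl⟩
      · have h1 : 2 ^ (c + 1) ∣ 2 ^ c * (2 * u) := ⟨u, by ring⟩
        rw [nu_add h1 hp (by omega)] at e
        have := (le_nu_iff hpos1 _).2 h1
        omega
      · have h1 : 2 ^ (c + 1) ∣ 2 ^ c * (2 * u + 1) + p := ⟨u + r + 1, by rw [hr]; ring⟩
        have h2 := (le_nu_iff (by omega) _).2 h1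
        have h3 : nu (2 ^ c * (2 * u + 1)) = c := by
          rw [show 2 ^ c * (2 * u + 1) = 2 ^ (c + 1) * u + 2 ^ c by ring,
            nu_add (dvd_mul_right _ _) hcpos (by rw [nu_pow]; omega), nu_pow]
        omega
    · intro n hn
      rw [hcast, nsc_le_iff]
      have h1 : 2 ^ Nat.log 2 n ≤ n := Nat.pow_log_le_self 2 (by omega)
      have h2 : n < 2 ^ (Nat.log 2 n + 1) := Nat.lt_pow_succ_log_self (by norm_num) n
      have h3 : 2 ^ (Nat.log 2 n + 1) = 2 * 2 ^ Nat.log 2 n := by ring
      refine ⟨0, 2 ^ (Nat.log 2 n + 1), by omega, by omega, fun t ht => ?_⟩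
      simp only [Function.comp, ruler_eq hx]
      rw [zero_add, add_assoc, nu_add' dvd_rfl (by omega) (by omega)]

end Pool.Agent.P.MP_2232d5_co
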