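import Mathlib

namespace Pool.Agent.P.MP_2232d5_co

/-- the 2-adic valuation -/
def nu (t : ℕ) : ℕ := padicValNat 2 t

theorem le_nu_iff {a : ℕ} (ha : 0 < a) (c : ℕ) : c ≤ nu a ↔ 2 ^ c ∣ a := by
  unfold nu
  exact (padicValNat_dvd_iff_le (p := 2) ha.ne').symm

theorem nu_lt {t c : ℕ} (ht : 0 < t) (h : t < 2 ^ c) : nu t < c := by
  by_contra hc
  have := Nat.le_of_dvd ht ((le_nu_iff ht c).1 (by omega))
  omega

theorem nu_pow (m : ℕ) : nu (2 ^ m) = m := by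
  unfold nu; exact padicValNat.prime_pow m

theorem nu_add {a t c : ℕ} (ha : 2 ^ c ∣ a) (ht : 0 < t) (hc : nu t < c) : nu (a + t) = nu t := by
  have hat : 0 < a + t := by omega
  apply le_antisymm
  · by_contra hlt
    have h1 : 2 ^ (nu t + 1) ∣ a + t := (le_nu_iff hat _).1 (by omega)
    have h2 : 2 ^ (nu t + 1) ∣ a := (pow_dvd_pow 2 (by omega)).trans ha
    have h3 : 2 ^ (nu t + 1) ∣ t := (Nat.dvd_add_right h2).1 h1
    have := (le_nu_iff ht _).2 h3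
    omega
  · have h2 : 2 ^ (nu t) ∣ a := (pow_dvd_pow 2 (by omega)).trans ha
    have h3 : 2 ^ (nu t) ∣ t := (le_nu_iff ht _).1 le_rfl
    exact (le_nu_iff hat _).2 (dvd_add h2 h3)

theorem nu_add' {a t c : ℕ} (ha : 2 ^ c ∣ a) (ht : 0 < t) (hc : t < 2 ^ c) : nu (a + t) = nu t :=
  nu_add ha ht (nu_lt ht hc)

theorem exists_odd {B : ℕ} (hB : 0 < B) : ∃ r, B = 2 ^ (nu B) * (2 * r + 1) := by
  obtain ⟨q, hq⟩ := (le_nu_iff hB (nu B)).1 le_rfl
  rcases Nat.even_or_odd' q with ⟨r, rfl | rfl⟩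
  · exfalso
    have : 2 ^ (nu B + 1) ∣ B := ⟨r, by rw [pow_succ]; linarith⟩
    have := (le_nu_iff hB _).2 this
    omega
  · exact ⟨r, hq⟩

/-- the capped valuation is periodic -/
theorem cap_add {a t c : ℕ} (ha : 2 ^ c ∣ a) (ht : 0 < t) : min (nu (a + t)) c = min (nu t) c := by
  by_cases h : nu t < c
  · rw [nu_add ha ht h]
  · have h1 : c ≤ nu t := by omega
    have h2 : c ≤ nu (a + t) :=
      (le_nu_iff (by omega) c).2 (dvd_add ha ((le_nu_iff ht c).1 h1))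
    omega

end Pool.Agent.P.MP_2232d5_co
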